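import Mathlib
import Pool.Agent.H707R3.DegBound
import Pool.Agent.H707R3.Core

/-!
Multipliers which permute a finite set of `p`-adic integers modulo a large power of `p` are congruent to
roots of unity of `ℤ_p`.
-/

set_option autoImplicit false

namespace Pool.Agent.Y701.ZT

open Pool.Agent.H707R3

variable {p : ℕ} [Fact p.Prime]

/-- The number `p` for odd `p`, the number `4` for `p = 2`. -/
def q0 (p : ℕ) : ℕ := if p = 2 then 4 else p

lemma not_dvd_of_ne {x y : ℤ_[p]} (h : x ≠ y) {n : ℕ} (hn : (x - y).valuation < n) :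
    ¬ (p : ℤ_[p]) ^ n ∣ x - y := by
  intro h1
  rw [← Ideal.mem_span_singleton,
    PadicInt.mem_span_pow_iff_le_valuation _ (sub_ne_zero.2 h)] at h1
  omega

/-- A multiplier of a finite set containing a unit is close to a root of unity. -/
theorem exists_torsion (S : Finset ℤ_[p]) {b₀ : ℤ_[p]} (hb₀ : b₀ ∈ S) (hu : IsUnit b₀) :
    ∃ N : ℕ, ∀ n, N ≤ n → ∀ a : ℤ_[p], ¬ (p : ℤ_[p]) ∣ a →
      (∀ b ∈ S, ∃ b' ∈ S, (p : ℤ_[p]) ^ n ∣ a * b - b') →
      ∃ c : ℤ_[p], (∃ m : ℕ, 0 < m ∧ c ^ m = 1) ∧ (p : ℤ_[p]) ^ n ∣ a - c := by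
  classical
  obtain ⟨u, hu'⟩ := hu.exists_right_inv
  let f : ℤ_[p] × ℤ_[p] × ℤ_[p] → ℕ := fun q => (q.1 * u * q.2.1 - q.2.2).valuation + 1
  refine ⟨(S ×ˢ S ×ˢ S).sup f + 1, ?_⟩
  intro n hn a ha hS
  obtain ⟨b₁, hb₁, h1⟩ := hS b₀ hb₀
  set c := b₁ * u with hc
  have hac : (p : ℤ_[p]) ^ n ∣ a - c := by
    have h2 : a - c = (a * b₀ - b₁) * u := by
      rw [hc]
      linear_combination (-a) * hu'
    rw [h2]
    exact h1.mul_right _
  refine ⟨c, ?_, hac⟩
  have hstab : ∀ s ∈ S, c * s ∈ S := by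
    intro s hs
    obtain ⟨s', hs', h3⟩ := hS s hs
    have h4 : (p : ℤ_[p]) ^ n ∣ c * s - s' := by
      have h5 : c * s - s' = (a * s - s') - (a - c) * s := by ring
      rw [h5]
      exact dvd_sub h3 (hac.mul_right _)
    have h6 : c * s = s' := by
      by_contra hne
      refine not_dvd_of_ne hne ?_ h4
      have h7 : f (b₁, s, s') ≤ (S ×ˢ S ×ˢ S).sup f :=
        Finset.le_sup (f := f) (Finset.mem_product.2 ⟨hb₁, Finset.mem_product.2 ⟨hs, hs'⟩⟩)
      have h8 : f (b₁, s, s') = (c * s - s').valuation + 1 := rfl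
      omega
    rw [h6]
    exact hs'
  have hpow : ∀ i : ℕ, c ^ i * b₀ ∈ S := by
    intro i
    induction i with
    | zero => simpa using hb₀
    | succ i ih =>
      have := hstab _ ih
      rw [pow_succ']
      rwa [← mul_assoc] at this
  have hc0 : c ≠ 0 := by
    intro h0
    rw [h0, sub_zero] at hac
    apply ha
    refine dvd_trans ?_ hac
    exact dvd_pow_self _ (by omega)
  obtain ⟨i, -, j, -, hij, heq⟩ := Set.infinite_univ.exists_ne_map_eq_of_mapsTo
    (f := fun i : ℕ => c ^ i * b₀) (s := Set.univ) (t := (S : Set ℤ_[p]))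
    (fun i _ => hpow i) S.finite_toSet
  have hcan : c ^ i = c ^ j := by
    have hb0 : b₀ ≠ 0 := hu.ne_zero
    exact mul_right_cancel₀ hb0 heq
  have key : ∀ i j : ℕ, i < j → c ^ i = c ^ j → ∃ m : ℕ, 0 < m ∧ c ^ m = 1 := by
    intro i j hlt he
    refine ⟨j - i, by omega, ?_⟩
    have h9 : c ^ i * c ^ (j - i) = c ^ i * 1 := by
      rw [← pow_add, mul_one, he]
      congr 1
      omega
    exact mul_left_cancel₀ (pow_ne_zero _ hc0) h9
  rcases lt_or_gt_of_ne hij with hlt | hlt
  · exact key i j hlt hcan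
  · exact key j i hlt hcan.symm

/-- The only root of unity of `ℤ_p` congruent to `1` modulo `p` (modulo `4` if `p = 2`) is `1`. -/
theorem torsion_eq_one {c : ℤ_[p]} {m : ℕ} (hm : 0 < m) (hc : c ^ m = 1)
    (h1 : (q0 p : ℤ_[p]) ∣ c - 1) : c = 1 := by
  have hp : p.Prime := Fact.out
  by_contra hne
  have hord0 : 0 < orderOf c := orderOf_pos_iff.2 (isOfFinOrder_iff_pow_eq_one.2 ⟨m, hm, hc⟩)
  have hord1 : orderOf c ≠ 1 := fun h => hne (orderOf_eq_one_iff.1 h)
  obtain ⟨l, hl, hdvd⟩ := Nat.exists_prime_and_dvd hord1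
  obtain ⟨r, hr⟩ := hdvd
  have hr0 : 0 < r := Nat.pos_of_ne_zero (by rintro rfl; omega)
  set e := c ^ r with he
  have hel : e ^ l = 1 := by
    rw [he, ← pow_mul, mul_comm, ← hr, pow_orderOf_eq_one]
  have hene : e ≠ 1 := by
    intro h
    have h2 : orderOf c ∣ r := orderOf_dvd_of_pow_eq_one h
    have h3 := Nat.le_of_dvd hr0 h2
    rw [hr] at h3
    have := hl.two_le
    nlinarith
  have he1 : (q0 p : ℤ_[p]) ∣ e - 1 := by
    refine h1.trans ?_
    have := sub_dvd_pow_sub_pow c 1 r
    rwa [one_pow] at this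
  have hsum : (∑ i ∈ Finset.range l, e ^ i) = 0 := by
    have h4 : (∑ i ∈ Finset.range l, e ^ i) * (e - 1) = 0 := by
      rw [geom_sum_mul, hel, sub_self]
    rcases mul_eq_zero.1 h4 with h5 | h5
    · exact h5
    · exact absurd (sub_eq_zero.1 h5) hene
  have hpe : (p : ℤ_[p]) ∣ e - 1 := by
    refine dvd_trans ?_ he1
    unfold q0
    split_ifs with h2
    · subst h2
      exact ⟨2, by norm_num⟩
    · exact dvd_rfl
  by_cases hlp : l = p
  · subst hlp
    by_cases h2 : l = 2
    · subst h2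
      have h6 : e = -1 := by
        simp only [Finset.sum_range_succ, Finset.range_zero, Finset.sum_empty, pow_zero,
          pow_one, zero_add] at hsum
        linear_combination hsum
      rw [h6] at he1
      have h7 : q0 2 = 4 := rfl
      rw [h7] at he1
      have h8 : ((2 : ℕ) : ℤ_[2]) ^ 2 ∣ (2 : ℤ_[2]) := by
        obtain ⟨t, ht⟩ := he1
        refine ⟨-t, ?_⟩
        push_cast at ht ⊢
        linear_combination -ht
      have h9 : ¬ ((2 : ℕ) : ℤ_[2]) ^ 2 ∣ (2 : ℤ_[2]) := by
        have hv : (2 : ℤ_[2]).valuation = 1 := by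
          have := PadicInt.valuation_p (p := 2)
          simpa using this
        intro h10
        rw [← Ideal.mem_span_singleton,
          PadicInt.mem_span_pow_iff_le_valuation _ (by norm_num)] at h10
        omega
      exact h9 h8
    · -- a primitive `l`-th root of unity in `ℚ_l`
      have hprim : IsPrimitiveRoot e l := by
        rw [IsPrimitiveRoot.iff_orderOf]
        exact orderOf_eq_prime hel hene
      let φ : ℤ_[l] →+* ℂ_[l] := (algebraMap ℚ_[l] ℂ_[l]).comp PadicInt.Coe.ringHom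
      have hφ : Function.Injective φ := by
        intro a b hab
        exact PadicInt.ext ((algebraMap ℚ_[l] ℂ_[l]).injective hab)
      have hprim' : IsPrimitiveRoot (φ e) (l ^ (0 + 1)) := by
        have := hprim.map_of_injective (f := φ) hφ
        simpa using this
      have hram : ramIdx (⊥ : IntermediateField ℚ_[l] ℂ_[l]) = 1 := by
        rw [ramIdx, Subgroup.relIndex_self]
      have h11 := totient_le_ramIdx (M := ⊥) hprim' ⟨(e : ℚ_[l]), rfl⟩ (by rw [hram]; norm_num)
      rw [hram, zero_add, pow_one, Nat.totient_prime hp] at h11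
      have := hp.two_le
      omega
  · -- the geometric sum is a unit
    have h12 : (PadicInt.toZMod (p := p)) e = 1 := by
      have h13 : (PadicInt.toZMod (p := p)) (e - 1) = 0 := by
        obtain ⟨t, ht⟩ := hpe
        rw [ht, map_mul, map_natCast, CharP.cast_eq_zero, zero_mul]
      rwa [map_sub, map_one, sub_eq_zero] at h13
    have h14 := congrArg (PadicInt.toZMod (p := p)) hsum
    rw [map_sum, map_zero] at h14
    simp only [map_pow, h12, one_pow, Finset.sum_const, Finset.card_range, nsmul_eq_mul,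
      mul_one] at h14
    rw [ZMod.natCast_eq_zero_iff] at h14
    exact hlp ((Nat.prime_dvd_prime_iff_eq hp hl).1 h14).symm

end Pool.Agent.Y701.ZT
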