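import Mathlib
import Pool.Agent.W90.ZT.Glob4

/-!
A `ℤ_p`-tower of curves has an unramified place whose Frobenius element is a topological generator of
the Galois group.
-/

set_option autoImplicit false

open PowerSeries
open scoped PowerSeries.WithPiTopology

namespace Pool.Agent.Y701.ZT

open Pool.Agent Pool.Agent.H387R3.ZT Pool.Agent.H707R3 Pool.Agent.H278R3.ZT

variable {p : ℕ} [Fact p.Prime] {k F E : Type} [Field k] [Field F] [Algebra k F]
  [Field E] [Algebra F E] [Algebra k E] [IsScalarTower k F E]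

/-- Not all Frobenius exponents of the unramified places are divisible by `p`. -/
theorem split_false [Finite k] [CharP k p]
    (h : IsZpTower k F E p) [IsGalois F E] (Φ : (E ≃ₐ[F] E) ≃ₜ* Multiplicative ℤ_[p])
    (K₀ K₁ : IntermediateField F E) [FiniteDimensional F K₀] [IsGalois F K₀]
    [FiniteDimensional F K₁] [IsGalois F K₁] (h0 : Module.finrank F K₀ = p ^ 0)
    (h1 : Module.finrank F K₁ = p ^ 1)
    (hr : ∀ v : Place k F, v.IsUnramified E → (p : ℤ_[p]) ∣ (Φ (v.frob E)).toAdd)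
    (hp0 : ∃ P : Polynomial ℂ_[p], (∏' w : UU k E K₀, (1 - X ^ w.1.deg)⁻¹) * (1 - X) *
      (1 - C (Nat.card k : ℂ_[p]) * X) = (P : PowerSeries ℂ_[p]))
    (hp1 : ∃ P : Polynomial ℂ_[p], (∏' w : UU k E K₁, (1 - X ^ w.1.deg)⁻¹) * (1 - X) *
      (1 - C (Nat.card k : ℂ_[p]) * X) = (P : PowerSeries ℂ_[p])) : False := by
  have hFrob := H124R3.ZT.taskFrob
  have hUnr := H124R3.ZT.taskUnr
  have hq : 2 ≤ Nat.card k := Finite.one_lt_card
  have hp : 2 ≤ p := (Fact.out : p.Prime).two_le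
  have facts : ∀ (n : ℕ) (K : IntermediateField F E) [FiniteDimensional F K] [IsGalois F K],
      n ≤ 1 → Module.finrank F K = p ^ n → ∀ v : Place k F, v.IsUnramified E →
      (∀ w ∈ H623R3.ZT.placesOver K v, w.deg = v.deg) ∧ (H623R3.ZT.placesOver K v).Finite ∧
        (H623R3.ZT.placesOver K v).ncard = p ^ n := by
    intro n K _ _ hn hK v hv
    obtain ⟨a1, a2, a3⟩ := over_facts hFrob hUnr h Φ n K hK v hv
    have hdv : (p : ℤ_[p]) ^ n ∣ (Φ (v.frob E)).toAdd := by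
      have h2 : (p : ℤ_[p]) ^ n ∣ (p : ℤ_[p]) ^ 1 := pow_dvd_pow _ hn
      rw [pow_one] at h2
      exact h2.trans (hr v hv)
    have e : res K (v.frob E) = 1 := res_eq_one_of Φ n K hK _ hdv
    rw [e, orderOf_one] at a1 a3
    refine ⟨fun w hw => by rw [a1 w hw, one_mul], a2, ?_⟩
    rw [← a3, mul_one]
  -- the unique place of `K₀`
  have hex : ∀ w : UU k E K₁, ∃ w₀ : UU k E K₀, H278R3.ZT.below (F := F) w₀.1 =
      H278R3.ZT.below (F := F) w.1 := by
    intro w
    obtain ⟨-, -, a3⟩ := facts 0 K₀ (by omega) h0 (H278R3.ZT.below (F := F) w.1) w.2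
    have hne : (H623R3.ZT.placesOver K₀ (H278R3.ZT.below (F := F) w.1)).Nonempty := by
      by_contra hcon
      rw [Set.not_nonempty_iff_eq_empty.1 hcon, Set.ncard_empty, pow_zero] at a3
      exact absurd a3 (by norm_num)
    obtain ⟨w₀, hw₀⟩ := hne
    rw [mem_placesOver_iff] at hw₀
    refine ⟨⟨w₀, ?_⟩, hw₀⟩
    show (H278R3.ZT.below (F := F) w₀).IsUnramified E
    rw [hw₀]
    exact w.2
  choose f hf using hex
  have huniq : ∀ w₀ w₀' : UU k E K₀, H278R3.ZT.below (F := F) w₀.1 =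
      H278R3.ZT.below (F := F) w₀'.1 → w₀ = w₀' := by
    intro w₀ w₀' hww
    obtain ⟨-, -, a3⟩ := facts 0 K₀ (by omega) h0 (H278R3.ZT.below (F := F) w₀.1) w₀.2
    rw [pow_zero, Set.ncard_eq_one] at a3
    obtain ⟨x, hx⟩ := a3
    have b1 : w₀.1 ∈ H623R3.ZT.placesOver K₀ (H278R3.ZT.below (F := F) w₀.1) :=
      (mem_placesOver_iff _ _).2 rfl
    have b2 : w₀'.1 ∈ H623R3.ZT.placesOver K₀ (H278R3.ZT.below (F := F) w₀.1) :=
      (mem_placesOver_iff _ _).2 hww.symm
    rw [hx] at b1 b2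
    apply Subtype.ext
    rw [Set.mem_singleton_iff.1 b1, Set.mem_singleton_iff.1 b2]
  have hinf : Infinite (UU k E K₀) := UU_infinite hFrob hUnr h Φ 0 K₀ h0
  have hc0 := H278R3.ZT.layer_curve h K₀
  have hc1 := H278R3.ZT.layer_curve h K₁
  refine H962R3.FAbs.fabs_pow (p := p) (Nat.card k) p hq hp (i0 := UU k E K₀) (i1 := UU k E K₁)
    (fun w => w.1.deg)
    (fun w => w.1.deg) (fun w => deg_ne_zero hc0 w.1) (fun w => deg_ne_zero hc1 w.1)
    (fun m => (finite_deg_le hc0 m).preimage Subtype.val_injective.injOn)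
    (fun m => (finite_deg_le hc1 m).preimage Subtype.val_injective.injOn) hp0 hp1 f ?_ ?_
  · intro w
    have c1 := (facts 1 K₁ le_rfl h1 (H278R3.ZT.below (F := F) w.1) w.2).1 w.1
      ((mem_placesOver_iff _ _).2 rfl)
    have c0 := (facts 0 K₀ (by omega) h0 (H278R3.ZT.below (F := F) (f w).1) (f w).2).1 (f w).1
      ((mem_placesOver_iff _ _).2 rfl)
    show w.1.deg = (f w).1.deg
    rw [c1, c0, hf w]
  · intro w₀
    obtain ⟨-, -, a3⟩ := facts 1 K₁ le_rfl h1 (H278R3.ZT.below (F := F) w₀.1) w₀.2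
    rw [pow_one] at a3
    rw [← a3]
    rw [← Set.ncard_image_of_injective {w : UU k E K₁ | f w = w₀} Subtype.val_injective]
    congr 1
    ext w
    rw [mem_placesOver_iff]
    constructor
    · rintro ⟨w', hw', rfl⟩
      have : f w' = w₀ := hw'
      rw [← this]
      exact (hf w').symm
    · intro hw
      have hU : (H278R3.ZT.below (F := F) w).IsUnramified E := by rw [hw]; exact w₀.2
      refine ⟨⟨w, hU⟩, ?_, rfl⟩
      apply huniq
      rw [hf ⟨w, hU⟩]
      exact hw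

theorem exists_unit_frob [Finite k] [CharP k p] (h : IsZpTower k F E p)
    (Φ : (E ≃ₐ[F] E) ≃ₜ* Multiplicative ℤ_[p]) :
    ∃ v : Place k F, v.IsUnramified E ∧ ¬ (p : ℤ_[p]) ∣ (Φ (v.frob E)).toAdd := by
  by_contra hcon
  push Not at hcon
  have hgal := h.galois
  obtain ⟨K₀, hK₀⟩ := exists_layer h 0
  obtain ⟨K₁, hK₁⟩ := exists_layer h 1
  have hpos : ∀ n, 0 < p ^ n := fun n => pow_pos (Fact.out : p.Prime).pos n
  have : FiniteDimensional F K₀ := FiniteDimensional.of_finrank_pos (by rw [hK₀]; exact hpos 0)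
  have : FiniteDimensional F K₁ := FiniteDimensional.of_finrank_pos (by rw [hK₁]; exact hpos 1)
  have : IsGalois F K₀ := layer_galois Φ.toMulEquiv K₀
  have : IsGalois F K₁ := layer_galois Φ.toMulEquiv K₁
  obtain ⟨A₀, hA₀⟩ := exists_roots h K₀ 0 hK₀
  obtain ⟨A₁, hA₁⟩ := exists_roots h K₁ 1 hK₁
  exact split_false h Φ K₀ K₁ hK₀ hK₁ hcon (poly_prop h K₀ A₀ hA₀) (poly_prop h K₁ A₁ hA₁)

end Pool.Agent.Y701.ZT
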