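import Mathlib
import Pool.Agent.Y701.ZT.Trans

/-!
Degrees and ramification indices of the splitting fields: final statements.
-/

set_option autoImplicit false

open IntermediateField

namespace Pool.Agent.Y701.ZT

open Pool.Agent.H387R3.ZT Pool.Agent.H707R3 Pool.Agent.H412R3.ZT Pool.Agent.W90.ZT

variable {p : ℕ} [Fact p.Prime]

lemma totient_q0 : Nat.totient (q0 p) = if p = 2 then 2 else p - 1 := by
  unfold q0
  split_ifs with h
  · decide
  · exact Nat.totient_prime Fact.out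

lemma adjoin_roots {k₀ Ω : Type} [Field k₀] [Field Ω] [Algebra k₀ Ω] {n : ℕ} {z : Ω}
    (hz : IsPrimitiveRoot z (p ^ n)) :
    IntermediateField.adjoin k₀ {w : Ω | w ^ p ^ n = 1} = k₀⟮z⟯ := by
  have hp : p.Prime := Fact.out
  have hne : NeZero (p ^ n) := ⟨pow_ne_zero _ hp.ne_zero⟩
  apply le_antisymm
  · rw [IntermediateField.adjoin_le_iff]
    intro w hw
    obtain ⟨i, _, rfl⟩ := hz.eq_pow_of_pow_eq_one hw
    exact pow_mem (IntermediateField.mem_adjoin_simple_self k₀ z) i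
  · apply IntermediateField.adjoin.mono
    intro w hw
    rw [Set.mem_singleton_iff] at hw
    rw [hw]
    exact hz.pow_eq_one

lemma arith {n D : ℕ} (hn : 1 ≤ n) (h : Nat.totient (p ^ n) ∣ Nat.totient (q0 p) * D) :
    p ^ n ∣ q0 p * D := by
  have hp : p.Prime := Fact.out
  obtain ⟨m, rfl⟩ : ∃ m, n = m + 1 := ⟨n - 1, by omega⟩
  rw [Nat.totient_prime_pow_succ hp, totient_q0] at h
  unfold q0
  split_ifs at h ⊢ with h2
  · subst h2
    have h3 : 2 ^ m ∣ 2 * D := by simpa using h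
    rw [pow_succ, mul_comm]
    have h4 : 4 * D = 2 * (2 * D) := by ring
    rw [h4]
    exact Nat.mul_dvd_mul_left 2 h3
  · rw [mul_comm (p ^ m)] at h
    have h3 : p ^ m ∣ D := Nat.dvd_of_mul_dvd_mul_left (Nat.sub_pos_of_lt hp.one_lt) h
    rw [pow_succ, mul_comm]
    exact Nat.mul_dvd_mul_left p h3

lemma arith' {n e r : ℕ} (hn : 1 ≤ n) (hr : 0 < r) (hr' : r ≤ Nat.totient (q0 p))
    (h : Nat.totient (p ^ n) ∣ e * r) : p ^ n ∣ q0 p * e := by
  have hp : p.Prime := Fact.out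
  obtain ⟨m, rfl⟩ : ∃ m, n = m + 1 := ⟨n - 1, by omega⟩
  rw [Nat.totient_prime_pow_succ hp] at h
  rw [totient_q0] at hr'
  have h1 : p ^ m ∣ e * r := (dvd_mul_right _ _).trans h
  unfold q0
  split_ifs at hr' ⊢ with h2
  · subst h2
    have h3 : 2 ^ m ∣ 2 * e := by
      have h4 : r = 1 ∨ r = 2 := by omega
      rcases h4 with rfl | rfl
      · rw [mul_one] at h1
        exact h1.mul_left 2
      · rwa [mul_comm] at h1
    rw [pow_succ, mul_comm]
    have h4 : 4 * e = 2 * (2 * e) := by ring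
    rw [h4]
    exact Nat.mul_dvd_mul_left 2 h3
  · have hcop : Nat.Coprime (p ^ m) r := by
      apply Nat.Coprime.pow_left
      rw [hp.coprime_iff_not_dvd]
      intro h5
      have h6 := Nat.le_of_dvd hr h5
      have := hp.one_lt
      omega
    have h3 : p ^ m ∣ e := hcop.dvd_of_dvd_mul_right h1
    rw [pow_succ, mul_comm]
    exact Nat.mul_dvd_mul_left p h3

theorem global_final {k F E : Type} [Field k] [Finite k] [CharP k p]
    [Field F] [Algebra k F] [Field E] [Algebra F E] [Algebra k E] [IsScalarTower k F E]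
    (h : IsZpTower k F E p) :
    ∃ N : ℕ, ∀ n, N ≤ n → ∀ K : IntermediateField F E, Module.finrank F K = p ^ n →
      ∀ A : Multiset ℂ, zetaR ℂ k K * (1 - PowerSeries.X) *
        (1 - PowerSeries.C (Nat.card k : ℂ) * PowerSeries.X) = rp A →
      FiniteDimensional ℚ (IntermediateField.adjoin ℚ {α : ℂ | α ∈ A}) ∧
      (∃ d : ℕ, d ∣ Nat.totient (q0 p) ∧
        Module.finrank ℚ
          (IntermediateField.adjoin ℚ ({α : ℂ | α ∈ A} ∪ {w : ℂ | w ^ p ^ n = 1})) =
        d * Module.finrank ℚ (IntermediateField.adjoin ℚ {α : ℂ | α ∈ A})) ∧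
      (∀ B : IntermediateField ℚ ℂ, B ≤ IntermediateField.adjoin ℚ {w : ℂ | w ^ p ^ n = 1} →
        (∃ j : ℕ, Module.finrank ℚ B = p ^ j) → (∀ x ∈ B, (starRingEnd ℂ) x = x) →
        B ≤ IntermediateField.adjoin ℚ {α : ℂ | α ∈ A}) ∧
      p ^ n ∣ q0 p * Module.finrank ℚ (IntermediateField.adjoin ℚ {α : ℂ | α ∈ A}) := by
  obtain ⟨N, hN⟩ := global_act h
  refine ⟨max N 2, ?_⟩
  intro n hn K hK A hA
  have hp : p.Prime := Fact.out
  have hne : NeZero (p ^ n) := ⟨pow_ne_zero _ hp.ne_zero⟩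
  obtain ⟨hfd, hact⟩ := hN n (by omega) K hK A hA
  set L := IntermediateField.adjoin ℚ {α : ℂ | α ∈ A} with hL
  obtain ⟨ζ, hζ⟩ : ∃ ζ : ℂ, IsPrimitiveRoot ζ (p ^ n) := ⟨_, Complex.isPrimitiveRoot_exp _ hne.out⟩
  have hfd2 : FiniteDimensional L L⟮ζ⟯ := adjoin.finiteDimensional (isIntegral_root hζ)
  obtain ⟨hfd3, hrank⟩ := finrank_restrict L ζ
  have hT : IntermediateField.adjoin ℚ ({α : ℂ | α ∈ A} ∪ {w : ℂ | w ^ p ^ n = 1}) =
      L⟮ζ⟯.restrictScalars ℚ := by
    have h9 := IntermediateField.adjoin_adjoin_left ℚ {α : ℂ | α ∈ A} {w : ℂ | w ^ p ^ n = 1}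
    rw [adjoin_roots hζ] at h9
    exact h9.symm
  have hrank' : Module.finrank ℚ
      (IntermediateField.adjoin ℚ ({α : ℂ | α ∈ A} ∪ {w : ℂ | w ^ p ^ n = 1})) =
      Module.finrank L L⟮ζ⟯ * Module.finrank ℚ L := by
    rw [hT, hrank, mul_comm]
  have hd := finrank_dvd (by omega : 2 ≤ n) hζ (hact ζ hζ)
  refine ⟨hfd, ⟨Module.finrank L L⟮ζ⟯, hd, hrank'⟩, ?_, ?_⟩
  · intro B hB hdeg hreal
    rw [adjoin_roots hζ] at hB
    by_cases h2 : p = 2
    · exact sub_mem_two h2 L hζ (hact ζ hζ) B hB hreal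
    · exact sub_mem_odd h2 L hζ (hact ζ hζ) B hB hdeg
  · apply arith (by omega)
    have h1 : Module.finrank ℚ ℚ⟮ζ⟯ = Nat.totient (p ^ n) := by
      rw [IntermediateField.adjoin.finrank (isIntegral_root hζ)]
      rw [← Polynomial.cyclotomic_eq_minpoly_rat hζ (Nat.pos_of_ne_zero hne.out),
        Polynomial.natDegree_cyclotomic]
    rw [← h1]
    have h2 : ℚ⟮ζ⟯ ≤ L⟮ζ⟯.restrictScalars ℚ := by
      rw [IntermediateField.adjoin_simple_le_iff]
      exact IntermediateField.mem_adjoin_simple_self L ζ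
    have h3 : Module.finrank ℚ ℚ⟮ζ⟯ ∣ Module.finrank ℚ (L⟮ζ⟯.restrictScalars ℚ) :=
      IntermediateField.finrank_dvd_of_le_right h2
    rw [hrank, mul_comm] at h3
    exact h3.trans (Nat.mul_dvd_mul_right hd _)

theorem local_final {k F E : Type} [Field k] [Finite k] [CharP k p]
    [Field F] [Algebra k F] [Field E] [Algebra F E] [Algebra k E] [IsScalarTower k F E]
    (h : IsZpTower k F E p) :
    ∃ N : ℕ, ∀ n, N ≤ n → ∀ K : IntermediateField F E, Module.finrank F K = p ^ n →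
      ∀ A : Multiset ℂ_[p], RecipRoots p k K A →
      Module.finrank (genField A)
        (IntermediateField.adjoin (genField A) {w : ℂ_[p] | w ^ p ^ n = 1}) ∣
          Nat.totient (q0 p) ∧
      0 < ramIdx (genField A) ∧ p ^ n ∣ q0 p * ramIdx (genField A) ∧
      (p ≠ 2 → ∀ B : IntermediateField ℚ_[p] ℂ_[p],
        B ≤ IntermediateField.adjoin ℚ_[p] {w : ℂ_[p] | w ^ p ^ n = 1} →
        (∃ j : ℕ, Module.finrank ℚ_[p] B = p ^ j) → B ≤ genField A) ∧
      (p = 2 → ∀ w : ℂ_[p], w ^ p ^ n = 1 → w + w⁻¹ ∈ genField A) := by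
  obtain ⟨N, hN⟩ := local_act h
  refine ⟨max N 2, ?_⟩
  intro n hn K hK A hA
  have hp : p.Prime := Fact.out
  have hne : NeZero (p ^ n) := ⟨pow_ne_zero _ hp.ne_zero⟩
  obtain ⟨z, hz⟩ : ∃ z : ℂ_[p], IsPrimitiveRoot z (p ^ n) := by
    have hne' : NeZero ((p ^ n : ℕ) : ℂ_[p]) := ⟨by exact_mod_cast hne.out⟩
    obtain ⟨z, hz⟩ := IsAlgClosed.exists_root (Polynomial.cyclotomic (p ^ n) ℂ_[p])
      (Polynomial.degree_cyclotomic_pos _ _ (Nat.pos_of_ne_zero hne.out)).ne'
    exact ⟨z, Polynomial.isRoot_cyclotomic_iff.1 hz⟩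
  have hact := hN n (by omega) K hK A hA (genField A)
    (fun α hα => IntermediateField.subset_adjoin _ _ hα)
  have hd := finrank_dvd (by omega : 2 ≤ n) hz (hact z hz)
  have hint := layer_integral h n K hK A hA
  have h0 := ramIdx_ne_zero A hint
  obtain ⟨m, rfl⟩ : ∃ m, n = m + 1 := ⟨n - 1, by omega⟩
  have hpos : 0 < Nat.totient (q0 p) := by
    rw [totient_q0]
    split_ifs with h2
    · norm_num
    · exact Nat.sub_pos_of_lt hp.one_lt
  have hfd : FiniteDimensional (genField A)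
      (IntermediateField.adjoin (genField A) {w : ℂ_[p] | w ^ p ^ (m + 1) = 1}) := by
    rw [adjoin_roots hz]
    exact adjoin.finiteDimensional (isIntegral_root hz)
  rw [← adjoin_roots (k₀ := genField A) hz] at hd
  obtain ⟨r, hr0, hr, hdvd⟩ := totient_dvd (genField A) hfd (Nat.le_of_dvd hpos hd)
  refine ⟨hd, Nat.pos_of_ne_zero h0, arith' (by omega) hr0 hr hdvd, ?_, ?_⟩
  · intro h2 B hB hdeg
    rw [adjoin_roots hz] at hB
    exact sub_mem_odd h2 (genField A) hz (hact z hz) B hB hdeg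
  · intro h2 w hw
    obtain ⟨i, -, rfl⟩ := hz.eq_pow_of_pow_eq_one hw
    have hzmem := add_inv_mem h2 (genField A) hz (hact z hz)
    have hz0 : z ≠ 0 := hz.ne_zero hne.out
    -- Chebyshev recursion
    have key : ∀ j : ℕ, z ^ j + (z ^ j)⁻¹ ∈ genField A ∧
        z ^ (j + 1) + (z ^ (j + 1))⁻¹ ∈ genField A := by
      intro j
      induction j with
      | zero =>
        refine ⟨?_, by simpa using hzmem⟩
        have : z ^ 0 + (z ^ 0)⁻¹ = (2 : ℂ_[p]) := by norm_num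
        rw [this]
        exact ofNat_mem _ 2
      | succ j ih =>
        refine ⟨ih.2, ?_⟩
        have h3 : z ^ (j + 1 + 1) + (z ^ (j + 1 + 1))⁻¹ =
            (z ^ (j + 1) + (z ^ (j + 1))⁻¹) * (z + z⁻¹) - (z ^ j + (z ^ j)⁻¹) := by
          field_simp
          ring
        rw [h3]
        exact sub_mem (mul_mem ih.2 hzmem) ih.1
    exact (key i).1

end Pool.Agent.Y701.ZT
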