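import Mathlib
import Pool.Agent.Y701.ZT.Exact

/-!
The coefficient fields of the `L`-functions inside the splitting field of the numerator of the zeta
function of a layer.
-/

set_option autoImplicit false

open IntermediateField

namespace Pool.Agent.Y701.ZT

open Pool.Agent.H387R3.ZT Pool.Agent.H707R3 Pool.Agent.H412R3.ZT Pool.Agent.W90.ZT

variable {p : ℕ} [Fact p.Prime]

theorem layer_exact {k F E : Type} [Field k] [Finite k] [CharP k p]
    [Field F] [Algebra k F] [Field E] [Algebra F E] [Algebra k E] [IsScalarTower k F E]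
    (h : IsZpTower k F E p) :
    ∃ r : ℕ, 0 < r ∧ r ∣ Nat.totient (q0 p) ∧ ∃ N : ℕ, ∀ n, N ≤ n →
      ∀ K : IntermediateField F E, Module.finrank F K = p ^ n →
      ∀ A : Multiset ℂ_[p], RecipRoots p k K A →
      (∀ χ : (E ≃ₐ[F] E) →* ℂ_[p]ˣ, orderOf χ = p ^ n →
        IntermediateField.adjoin ℚ_[p] (Set.range fun j => PowerSeries.coeff j (Lfun k χ)) ≤
          genField A ∧
        Module.finrank ℚ_[p] (IntermediateField.adjoin ℚ_[p]
          (Set.range fun j => PowerSeries.coeff j (Lfun k χ))) * r = Nat.totient (p ^ n) ∧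
        ramIdx (IntermediateField.adjoin ℚ_[p]
          (Set.range fun j => PowerSeries.coeff j (Lfun k χ))) * r = Nat.totient (p ^ n)) ∧
      FiniteDimensional ℚ_[p] (genField A) ∧
      Nat.totient (p ^ n) ∣ Module.finrank ℚ_[p] (genField A) * r ∧
      0 < ramIdx (genField A) ∧ Nat.totient (p ^ n) ∣ ramIdx (genField A) * r := by
  classical
  obtain ⟨r, hr0, hr, N₁, hN₁⟩ := Lfun_exact h
  obtain ⟨N₂, hN₂⟩ := H623R3.ZT.taskG p k F E h
  obtain ⟨N₃, hN₃⟩ := taskF2 p k F E h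
  refine ⟨r, hr0, hr, max N₁ (max (N₂ + 1) N₃), ?_⟩
  intro n hn K₀ hK₀ A₀ hA₀
  have hint := layer_integral h n K₀ hK₀ A₀ hA₀
  have hfd := finiteDimensional_genField A₀ hint
  have h0 := ramIdx_ne_zero A₀ hint
  have hall : ∀ χ : (E ≃ₐ[F] E) →* ℂ_[p]ˣ, orderOf χ = p ^ n →
        IntermediateField.adjoin ℚ_[p] (Set.range fun j => PowerSeries.coeff j (Lfun k χ)) ≤
          genField A₀ := by
    intro χ₀ hχ₀
    obtain ⟨K, A, hKA, rfl, rfl⟩ := exists_family h n K₀ hK₀ A₀ hA₀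
    obtain ⟨m, rfl⟩ : ∃ m, n = m + 1 := ⟨n - 1, by omega⟩
    have hm : N₂ ≤ m := by omega
    obtain ⟨s, hs, hfac⟩ := hN₂ K (fun n => (hKA n).1) m hm
    have hB : ∀ χ : (E ≃ₐ[F] E) →* ℂ_[p]ˣ, orderOf χ = p ^ (m + 1) →
        ∃ B : Multiset ℂ_[p], Lfun k χ = recipProd B := fun χ hχ =>
      weil p k F E h (m + 1) χ hχ (hN₃ K A hKA (m + 1) χ (by omega) hχ)
    choose! B hB' using hB
    have hfac2 : recipProd (A (m + 1)) = recipProd (B χ₀) *
        recipProd (A m + ∑ χ ∈ s.erase χ₀, B χ) := by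
      rw [← (hKA (m + 1)).2, hfac]
      have h1 : ∏ χ ∈ s, Lfun k χ = recipProd (B χ₀) * recipProd (∑ χ ∈ s.erase χ₀, B χ) := by
        rw [← recipProd_finset, ← Finset.mul_prod_erase s _ ((hs χ₀).2 hχ₀), hB' χ₀ hχ₀]
        congr 1
        refine Finset.prod_congr rfl fun χ hχ => ?_
        exact hB' χ ((hs χ).1 (Finset.mem_of_mem_erase hχ))
      rw [h1, recipProd_add, ← (hKA m).2]
      ring
    rw [IntermediateField.adjoin_le_iff]
    rintro x ⟨j, rfl⟩
    show PowerSeries.coeff j (Lfun k χ₀) ∈ _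
    rw [hB' χ₀ hχ₀]
    refine coeff_recipProd_mem _ _ ?_ j
    intro β hβ
    by_cases hβ0 : β = 0
    · rw [hβ0]; exact zero_mem _
    · exact IntermediateField.subset_adjoin _ _ (mem_of_recipProd_eq hfac2 hβ hβ0)
  obtain ⟨Φ⟩ := h.group
  obtain ⟨χ₀, hχ₀⟩ := exists_char Φ.toMulEquiv n
  have hle := hall χ₀ hχ₀
  obtain ⟨h1, h2⟩ := hN₁ n (by omega) χ₀ hχ₀
  refine ⟨fun χ hχ => ⟨hall χ hχ, hN₁ n (by omega) χ hχ⟩, hfd, ?_, Nat.pos_of_ne_zero h0, ?_⟩
  · rw [← h1]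
    exact Nat.mul_dvd_mul_right (IntermediateField.finrank_dvd_of_le_right hle) r
  · rw [← h2]
    apply Nat.mul_dvd_mul_right
    exact ⟨_, (Subgroup.relIndex_mul_relIndex _ _ _ (valGroup_mono bot_le)
      (valGroup_mono hle)).symm⟩

end Pool.Agent.Y701.ZT
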