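import Mathlib
import Pool.Agent.Y701.ZT.Fin

/-!
Roots of unity of `p`-power order over the splitting field: those of order `p` (order `4` if `p = 2`)
generate all of them.
-/

set_option autoImplicit false

open IntermediateField

namespace Pool.Agent.Y701.ZT

open Pool.Agent.H387R3.ZT Pool.Agent.H707R3 Pool.Agent.H412R3.ZT Pool.Agent.W90.ZT

variable {p : ℕ} [Fact p.Prime]

theorem adjoin_eq_q0 {L Ω : Type} [Field L] [Field Ω] [Algebra L Ω] {n : ℕ} (hn : 2 ≤ n) {ζ : Ω}
    (hζ : IsPrimitiveRoot ζ (p ^ n)) (hσ : ActTors p n L ζ) :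
    IntermediateField.adjoin L {w : Ω | w ^ p ^ n = 1} =
      IntermediateField.adjoin L {w : Ω | w ^ q0 p = 1} := by
  have hp : p.Prime := Fact.out
  have hne : NeZero (p ^ n) := ⟨pow_ne_zero _ hp.ne_zero⟩
  obtain ⟨s, hs⟩ := q0_dvd (p := p) hn
  have hs0 : 0 < s := by
    rcases Nat.eq_zero_or_pos s with h0 | h0
    · rw [h0, mul_zero] at hs
      exact absurd hs hne.out
    · exact h0
  apply le_antisymm
  · rw [adjoin_roots hζ, IntermediateField.adjoin_simple_le_iff]
    have hcyc : IsCyclotomicExtension {p ^ n} L L⟮ζ⟯ := cyclo hζ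
    have hgal : IsGalois L L⟮ζ⟯ := IsCyclotomicExtension.isGalois {p ^ n} L L⟮ζ⟯
    have hfd : FiniteDimensional L L⟮ζ⟯ := adjoin.finiteDimensional (isIntegral_root hζ)
    set g := AdjoinSimple.gen L ζ with hg0
    have hg : IsPrimitiveRoot g (p ^ n) := gen_prim (L := L) hζ
    let K : IntermediateField L L⟮ζ⟯ := IntermediateField.adjoin L {g ^ s}
    have hgK : g ∈ K := by
      rw [← IsGalois.fixedField_fixingSubgroup K]
      rintro ⟨σ, hσK⟩
      show σ g = g
      obtain ⟨i, hi, hit⟩ := hσ σ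
      rw [IntermediateField.mem_fixingSubgroup_iff] at hσK
      have h1 : σ (g ^ s) = g ^ s := hσK _ (IntermediateField.subset_adjoin _ _ rfl)
      rw [map_pow, hi, ← pow_mul] at h1
      have h2 : i * s ≡ 1 * s [MOD q0 p * s] := by
        rw [← hs, one_mul]
        exact modEq_of_pow hg h1
      have h3 : i ≡ 1 [MOD q0 p] := Nat.ModEq.mul_right_cancel' hs0.ne' h2
      have h4 := tors_modEq hn hit h3
      rw [hi, pow_of_modEq hg h4, pow_one]
    have h5 : ζ ∈ IntermediateField.adjoin L {ζ ^ s} := by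
      have h6 : (K.map L⟮ζ⟯.val) = IntermediateField.adjoin L {ζ ^ s} := by
        rw [IntermediateField.adjoin_map, Set.image_singleton, map_pow]
        rfl
      rw [← h6]
      exact ⟨g, hgK, rfl⟩
    refine (IntermediateField.adjoin.mono L _ _ ?_) h5
    intro w hw
    rw [Set.mem_singleton_iff] at hw
    rw [hw]
    show (ζ ^ s) ^ q0 p = 1
    rw [← pow_mul, mul_comm, ← hs, hζ.pow_eq_one]
  · apply IntermediateField.adjoin.mono
    intro w hw
    show w ^ p ^ n = 1
    rw [hs, pow_mul, hw, one_pow]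

theorem root_final {k F E : Type} [Field k] [Finite k] [CharP k p]
    [Field F] [Algebra k F] [Field E] [Algebra F E] [Algebra k E] [IsScalarTower k F E]
    (h : IsZpTower k F E p) :
    ∃ N : ℕ, ∀ n, N ≤ n → ∀ K : IntermediateField F E, Module.finrank F K = p ^ n →
      ∀ A : Multiset ℂ_[p], RecipRoots p k K A →
      FiniteDimensional ℚ_[p] (genField A) ∧
      IntermediateField.adjoin (genField A) {w : ℂ_[p] | w ^ p ^ n = 1} =
        IntermediateField.adjoin (genField A) {w : ℂ_[p] | w ^ q0 p = 1} ∧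
      p ^ n ∣ q0 p * Module.finrank ℚ_[p] (genField A) := by
  obtain ⟨N, hN⟩ := local_act h
  refine ⟨max N 2, ?_⟩
  intro n hn K hK A hA
  have hp : p.Prime := Fact.out
  have hne : NeZero (p ^ n) := ⟨pow_ne_zero _ hp.ne_zero⟩
  obtain ⟨z, hz⟩ : ∃ z : ℂ_[p], IsPrimitiveRoot z (p ^ n) := by
    have hne' : NeZero ((p ^ n : ℕ) : ℂ_[p]) := ⟨by exact_mod_cast hne.out⟩
    obtain ⟨z, hz⟩ := IsAlgClosed.exists_root (Polynomial.cyclotomic (p ^ n) ℂ_[p])
      (Polynomial.degree_cyclotomic_pos _ _ (Nat.pos_of_ne_zero hne.out)).ne'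
    exact ⟨z, Polynomial.isRoot_cyclotomic_iff.1 hz⟩
  have hact := hN n (by omega) K hK A hA (genField A)
    (fun α hα => IntermediateField.subset_adjoin _ _ hα)
  have hd := finrank_dvd (by omega : 2 ≤ n) hz (hact z hz)
  have hint := layer_integral h n K hK A hA
  have hfd := finiteDimensional_genField A hint
  refine ⟨hfd, adjoin_eq_q0 (by omega) hz (hact z hz), ?_⟩
  apply arith (by omega)
  obtain ⟨m, rfl⟩ : ∃ m, n = m + 1 := ⟨n - 1, by omega⟩
  -- the degree of the cyclotomic field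
  have hQfd : FiniteDimensional ℚ_[p] ℚ_[p]⟮z⟯ := adjoin.finiteDimensional (isIntegral_root hz)
  have hge : Nat.totient (p ^ (m + 1)) ≤ Module.finrank ℚ_[p] ℚ_[p]⟮z⟯ := by
    have hint' : ∀ α ∈ ({z} : Multiset ℂ_[p]), IsIntegral ℚ_[p] α := by
      intro α hα
      rw [Multiset.mem_singleton] at hα
      rw [hα]; exact isIntegral_root hz
    have hset : genField {z} = ℚ_[p]⟮z⟯ := by
      rw [genField]
      congr 1
      ext x; simp
    have h1 := H387R3.ZT.ramIdx_le_finrank {z} hint'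
    rw [hset] at h1
    have h2 := totient_le_ramIdx hz (mem_adjoin_simple_self ℚ_[p] z)
      (hset ▸ ramIdx_ne_zero {z} hint')
    exact h2.trans h1
  have hle : Module.finrank ℚ_[p] ℚ_[p]⟮z⟯ ≤ Nat.totient (p ^ (m + 1)) := by
    rw [IntermediateField.adjoin.finrank (isIntegral_root hz)]
    have hdvd : minpoly ℚ_[p] z ∣ Polynomial.cyclotomic (p ^ (m + 1)) ℚ_[p] := by
      apply minpoly.dvd
      rw [Polynomial.aeval_def, Polynomial.eval₂_eq_eval_map, Polynomial.map_cyclotomic]
      have hne : NeZero ((p ^ (m + 1) : ℕ) : ℂ_[p]) := ⟨by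
        exact_mod_cast (pow_ne_zero (m + 1) hp.ne_zero : p ^ (m + 1) ≠ 0)⟩
      exact (Polynomial.isRoot_cyclotomic_iff.2 hz)
    have := Polynomial.natDegree_le_of_dvd hdvd (Polynomial.cyclotomic_ne_zero _ _)
    rwa [Polynomial.natDegree_cyclotomic] at this
  rw [← le_antisymm hle hge]
  have h2 : ℚ_[p]⟮z⟯ ≤ (genField A)⟮z⟯.restrictScalars ℚ_[p] := by
    rw [IntermediateField.adjoin_simple_le_iff]
    exact IntermediateField.mem_adjoin_simple_self (genField A) z
  have h3 : Module.finrank ℚ_[p] ℚ_[p]⟮z⟯ ∣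
      Module.finrank ℚ_[p] ((genField A)⟮z⟯.restrictScalars ℚ_[p]) :=
    IntermediateField.finrank_dvd_of_le_right h2
  have h4 : Module.finrank ℚ_[p] ((genField A)⟮z⟯.restrictScalars ℚ_[p]) =
      Module.finrank ℚ_[p] (genField A) * Module.finrank (genField A) (genField A)⟮z⟯ :=
    (Module.finrank_mul_finrank ℚ_[p] (genField A) (genField A)⟮z⟯).symm
  rw [h4, mul_comm] at h3
  exact h3.trans (Nat.mul_dvd_mul_right hd _)

end Pool.Agent.Y701.ZT
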